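import Pool.Agent.H50.SWR.Clb
import Pool.Agent.H57.W1.H45.EXA.ExvB
import Pool.Agent.H31.W1.H2.GEN.ChT
import Pool.Agent.H31.W1.H80.GEN.Chn

/-!
# No chain is better than the numbers of a list with closed labels

`one_crd`: the digits of a coordinate with a closed label behind the exact coordinates of the label,
with a large gradient. `chn_abs'`: no visible chain is better than the numbers of a list with closed
labels, which is full; the numbers need not be in increasing order. `thr_le_chn`: the thresholds of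
the chains are at most the numbers of the list.
-/

set_option autoImplicit false

namespace Pool.W.SWR

open Pool.SWR

open Finset Real MvPolynomial
open Pool.Agent.H49.Ent Pool.Agent.H32.Dense Pool.STK Pool.KA Pool.KSAT Pool.K2S Pool.PB
open Pool.GEN Pool.S6C Pool.CHT
open Pool.LBT (LSys Slo Tri ThrOf)
open Pool.GRD (LbP clo1 gr_cls)
open Pool.FLF (Fam.sub)
open Pool.GRW (bas_part tms_bas tmc_bas lbp_of_chn)
open Pool.LA91 (Chn Att Ful FulC of_cond_pos)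
open Pool.ALT (ful_up ful_res)
open Pool.V0F (lb_crd abs_of_floor floor_of_abs)
open Pool.UNJ (ceI)

variable {m J : ℕ}


/-- **No visible chain is better than the numbers of a full list with closed labels.** -/
theorem chn_abs' {S : Pool.PB.PCl m} {C₀ : ℝ} (hC₀ : 0 ≤ C₀) (htm : Pool.GEN.TmC S C₀)
    (hposA : ∀ (τ : ℝ) (J : ℕ) (F : Pool.KA.Fam m J) (A : F.Ω → Prop), S.St τ J F A → 0 < Pool.K2S.Pe F.p A)
    {c : ℕ → Fin m} {r : ℕ} {w u₀ u₁ : ℝ} {s rd : ℕ → ℝ} (hC : Pool.LA91.Chn S c 0 r w u₀ u₁ s rd)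
    {i : ℕ} (hi : i < r) (K : ℕ) {h₁ : ℝ} (hh₁ : 0 < h₁) (hh1₁ : s i + h₁ ≤ 1) :
    Pool.S6C.Bas S (fun J F A => ∀ (a w₀ e : ℕ) (g : ℕ → ℕ), w₀ ≤ a → a ≤ ⌊w * J⌋₊ →
      (∀ l ≤ i, (e : ℝ) + g l + (((⌊w * J⌋₊ - a : ℕ) : ℝ)) + h₁ * J ≤ J) →
      (s i + h₁) * J ≤ g i + (((⌊w * J⌋₊ - a : ℕ) : ℝ)) →
      ¬ Pool.W.GEN.ChN F c (i + 1) (fun _ => K) a w₀ e g A) := by
  classical
  have hw0 := hC.w0
  have hw1 : w < 1 := hC.wu1.trans_lt hC.u1
  have hl2 : 0 < Real.log 2 := Real.log_pos one_lt_two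
  have hsi0 : 0 ≤ s i := (hC.s0 i (Nat.zero_le _) hi).1
  have hrdi : rd i < 1 := hC.r1 i (Nat.zero_le _) hi
  -- the radius
  obtain ⟨u, hu⟩ : ∃ u, u = max u₁ ((rd i + 1) / 2) := ⟨_, rfl⟩
  have hu₁ : u₁ ≤ u := by rw [hu]; exact le_max_left _ _
  have hurd : (rd i + 1) / 2 ≤ u := by rw [hu]; exact le_max_right _ _
  have hu1 : u < 1 := by rw [hu]; exact max_lt hC.u1 (by linarith)
  have hwu : w ≤ u := hC.wu1.trans hu₁
  have hu0 : 0 ≤ u := hw0.trans hwu
  -- the gain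
  obtain ⟨h, hhd⟩ : ∃ h, h = min h₁ ((1 - u) / 2) := ⟨_, rfl⟩
  have hh : 0 < h := by rw [hhd]; exact lt_min hh₁ (by linarith)
  have hhh₁ : h ≤ h₁ := by rw [hhd]; exact min_le_left _ _
  have hhu : h ≤ (1 - u) / 2 := by rw [hhd]; exact min_le_right _ _
  have hh1 : s i + h ≤ 1 := by linarith
  obtain ⟨η, hη⟩ : ∃ η, η = min (h / 8) ((1 - rd i) / 4) := ⟨_, rfl⟩
  have hη0 : 0 < η := by rw [hη]; exact lt_min (by linarith) (by linarith)
  have hηh : η ≤ h / 8 := by rw [hη]; exact min_le_left _ _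
  have hηr : η ≤ (1 - rd i) / 4 := by rw [hη]; exact min_le_right _ _
  -- the attained label
  obtain ⟨K₂, hK₂⟩ := hC.att i (Nat.zero_le _) hi η hη0
  -- fullness
  have hfull : Pool.LA91.Ful S ((range i).image c) w u :=
    Pool.ALT.ful_up hposA (hC.pre i (Nat.zero_le _) hi.le) hu₁ hu1.le
  have hful := Pool.GRW.bas_part (hC.ful (h / 4) (by linarith)) (c := 4) (by norm_num)
  obtain ⟨C₁, c₁, hC₁, hc₁, hlbp⟩ := Pool.W.GRW.lbp_of_chn m (i + 1) K
  obtain ⟨K', hK'⟩ : ∃ K', K' = max c₁ K₂ := ⟨_, rfl⟩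
  have hgr := Pool.GRD.gr_cls hC₀ hposA (Pool.GEN.N34.tm_sub34 hC₀ htm) ((range i).image c) (c i) hwu
    hu0 hu1 hfull K' hη0
  have hpart := Pool.GRW.bas_part (hgr.and (hful.and hK₂)) (c := (c₁ : ℝ)) (by exact_mod_cast hc₁)
  -- the time
  obtain ⟨ψ, hψ⟩ : ∃ ψ : ℝ, ψ = min ((1 - w) * Real.log 2 / (2 * C₁))
      (η * Real.log 2 / (2 * C₁ * ((i : ℝ) + 1))) := ⟨_, rfl⟩
  have hC₁0 : 0 < C₁ := by linarith
  have hw1' : 0 < 1 - w := by linarith
  have hψ0 : 0 < ψ := by rw [hψ]; exact lt_min (by positivity) (by positivity)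
  have hψ1 : C₁ * ψ ≤ (1 - w) * Real.log 2 / 2 := by
    have h1 : ψ ≤ (1 - w) * Real.log 2 / (2 * C₁) := by rw [hψ]; exact min_le_left _ _
    have h2 : C₁ * ((1 - w) * Real.log 2 / (2 * C₁)) = (1 - w) * Real.log 2 / 2 := by
      field_simp
    rw [← h2]
    exact mul_le_mul_of_nonneg_left h1 hC₁0.le
  have hψ2 : ((i : ℝ) + 1) * (C₁ * ψ) ≤ η * Real.log 2 / 2 := by
    have h1 : ψ ≤ η * Real.log 2 / (2 * C₁ * ((i : ℝ) + 1)) := by rw [hψ]; exact min_le_right _ _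
    have h2 : ((i : ℝ) + 1) * (C₁ * (η * Real.log 2 / (2 * C₁ * ((i : ℝ) + 1)))) =
        η * Real.log 2 / 2 := by
      field_simp
    rw [← h2]
    exact mul_le_mul_of_nonneg_left (mul_le_mul_of_nonneg_left h1 hC₁0.le) (by positivity)
  obtain ⟨D, hD⟩ : ∃ D : ℝ, D = ((i : ℝ) + 1) * (C₁ / Real.log 2 + 1) + c₁ + 4 := ⟨_, rfl⟩
  obtain ⟨cm, hcm⟩ : ∃ cm : ℝ, cm = Real.log (2 * ((m + 3 : ℕ) : ℝ) + 1) := ⟨_, rfl⟩
  have hcm0 : 0 ≤ cm := by
    rw [hcm]
    refine Real.log_nonneg ?_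
    push_cast
    have : (0 : ℝ) ≤ m := Nat.cast_nonneg m
    linarith
  obtain ⟨J₁, hJ₁⟩ := exists_nat_ge (D / (η / 2))
  obtain ⟨J₂, hJ₂⟩ := exists_nat_ge (2 * C₁ / ((1 - w) * Real.log 2))
  obtain ⟨J₃, hJ₃⟩ := exists_nat_ge ((c₁ : ℝ) / h)
  obtain ⟨J₄, hJ₄⟩ := exists_nat_gt ((Real.log 2 + cm) / (h / 4 * Real.log 2))
  refine (hpart.and (Pool.GRW.tms_bas htm hψ0)).mono (max (max J₁ J₂) (max J₃ J₄)) ?_
  rintro J hJ F A ⟨hall, hA, hTm⟩ a w₀ e g hwa haw hvis hgi hch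
  have hJ0 : (0 : ℝ) ≤ J := Nat.cast_nonneg J
  have hJ1 : D ≤ η / 2 * J := by
    have h1 : (J₁ : ℝ) ≤ J := by
      exact_mod_cast ((le_max_left _ _).trans (le_max_left _ _)).trans hJ
    have h2 := hJ₁.trans h1
    rw [div_le_iff₀ (by linarith)] at h2
    linarith
  have hJ2 : 2 * C₁ ≤ (1 - w) * Real.log 2 * J := by
    have h1 : (J₂ : ℝ) ≤ J := by
      exact_mod_cast ((le_max_right _ _).trans (le_max_left _ _)).trans hJ
    have h2 := hJ₂.trans h1
    rw [div_le_iff₀ (by positivity)] at h2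
    linarith
  have hJ3 : (c₁ : ℝ) ≤ h * J := by
    have h1 : (J₃ : ℝ) ≤ J := by
      exact_mod_cast ((le_max_left _ _).trans (le_max_right _ _)).trans hJ
    have h2 := hJ₃.trans h1
    rw [div_le_iff₀ hh] at h2
    linarith
  have hJ4 : Real.log 2 + cm < h / 4 * Real.log 2 * J := by
    have h1 : (J₄ : ℝ) ≤ J := by
      exact_mod_cast ((le_max_right _ _).trans (le_max_right _ _)).trans hJ
    have h2 := hJ₄.trans_le h1
    rw [div_lt_iff₀ (by positivity)] at h2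
    linarith
  have hhJ : h * J ≤ h₁ * J := mul_le_mul_of_nonneg_right hhh₁ hJ0
  have hvis' : ∀ l ≤ i, (e : ℝ) + g l + (((⌊w * J⌋₊ - a : ℕ) : ℝ)) + h * J ≤ J := fun l hl => by
    have := hvis l hl
    linarith
  have hgi' : (s i + h) * J ≤ g i + (((⌊w * J⌋₊ - a : ℕ) : ℝ)) := by
    have e1 : (s i + h) * J = s i * J + h * J := by ring
    have e2 : (s i + h₁) * J = s i * J + h₁ * J := by ring
    rw [e1]
    rw [e2] at hgi
    linarith
  obtain ⟨v, hv⟩ : ∃ v, v = ⌊w * J⌋₊ - a := ⟨_, rfl⟩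
  rw [← hv] at hvis' hgi'
  have hwJ : ⌊w * J⌋₊ ≤ J := Pool.LBT.fl_le' hw1.le J
  obtain ⟨uu, huu⟩ : ∃ uu : ℕ, uu = ⌈C₁ * (ψ * J + 1) / Real.log 2⌉₊ := ⟨_, rfl⟩
  have hu1' : Real.exp (C₁ * (ψ * J + 1)) ≤ 2 ^ uu := by
    have e1 : C₁ * (ψ * J + 1) / Real.log 2 ≤ uu := by rw [huu]; exact Nat.le_ceil _
    rw [div_le_iff₀ hl2] at e1
    have e2 : (2 : ℝ) ^ uu = Real.exp (uu * Real.log 2) := by
      rw [mul_comm, Real.exp_mul, Real.exp_log (by norm_num), Real.rpow_natCast]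
    rw [e2]
    exact Real.exp_le_exp.2 e1
  have hu2 : (((i + 1 : ℕ) : ℝ)) * uu ≤ η / 2 * J + ((i : ℝ) + 1) * (C₁ / Real.log 2 + 1) := by
    have e1 : (uu : ℝ) < C₁ * (ψ * J + 1) / Real.log 2 + 1 := by
      rw [huu]
      exact Nat.ceil_lt_add_one (by positivity)
    have e2 : C₁ * (ψ * J + 1) / Real.log 2 + 1 = C₁ * ψ * J / Real.log 2 + (C₁ / Real.log 2 + 1) := by
      ring
    rw [e2] at e1
    have e3 : ((i : ℝ) + 1) * (C₁ * ψ * J / Real.log 2) ≤ η / 2 * J := by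
      have e4 : ((i : ℝ) + 1) * (C₁ * ψ * J / Real.log 2) =
          (((i : ℝ) + 1) * (C₁ * ψ)) * J / Real.log 2 := by ring
      rw [e4, div_le_iff₀ hl2]
      have := mul_le_mul_of_nonneg_right hψ2 hJ0
      nlinarith
    push_cast
    have e5 := mul_le_mul_of_nonneg_left e1.le (show (0 : ℝ) ≤ (i : ℝ) + 1 by positivity)
    nlinarith
  have hlog : 0 < C₁ / Real.log 2 := by positivity
  have hloss : (((i + 1) * uu + 1 + c₁ : ℕ) : ℝ) ≤ η * J - 3 := by
    push_cast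
    push_cast at hu2
    linarith
  -- the label
  obtain ⟨B, hBA, hPe, V, z, z', G, hG⟩ := hlbp J F c a w₀ e v uu g A (ψ * J) hA
    (hC.inj.mono fun x hx => by
      rw [Set.mem_Iio] at hx ⊢
      omega)
    hwa (by omega)
    (fun l hl => by
      have h1 := hvis' l (by omega)
      have h2 : ((e + g l + v + c₁ : ℕ) : ℝ) ≤ J := by
        push_cast
        linarith
      exact_mod_cast h2)
    (by positivity) hTm
    (by
      have e1 : (w₀ : ℝ) ≤ w * J := by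
        have e2 : (w₀ : ℝ) ≤ ⌊w * J⌋₊ := by exact_mod_cast hwa.trans haw
        exact e2.trans (Nat.floor_le (by positivity))
      have e3 : (1 - w) * J * Real.log 2 ≤ ((J : ℝ) - w₀) * Real.log 2 :=
        mul_le_mul_of_nonneg_right (by linarith) hl2.le
      have e4 := mul_le_mul_of_nonneg_right hψ1 hJ0
      nlinarith)
    hu1' hch i (Nat.lt_succ_self i) (by
      have e1 : (((i + 1) * uu + 1 + c₁ : ℕ) : ℝ) ≤ ((g i + v : ℕ) : ℝ) := by
        push_cast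
        push_cast at hloss
        have e2 : η * J ≤ (s i + h) * J := by
          refine mul_le_mul_of_nonneg_right ?_ hJ0
          linarith
        linarith
      exact_mod_cast e1)
  obtain ⟨P₁, hP₁⟩ : ∃ P₁ : ℕ, P₁ = g i + v - ((i + 1) * uu + 1 + c₁) := ⟨_, rfl⟩
  rw [← hP₁, show a + v = ⌊w * J⌋₊ by omega] at hG
  have hP₁' : (s i + h - η) * J + 3 ≤ P₁ := by
    have e1 : (((g i + v : ℕ) : ℝ)) - (((i + 1) * uu + 1 + c₁ : ℕ) : ℝ) ≤ P₁ := by
      rw [sub_le_iff_le_add, hP₁]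
      exact_mod_cast (by omega : g i + v ≤ g i + v - ((i + 1) * uu + 1 + c₁) +
        ((i + 1) * uu + 1 + c₁))
    push_cast at e1 hloss
    linarith
  obtain ⟨hgr', hful', V₂, z₂, z₂', G₂, hG₂⟩ := hall B hBA hPe
  obtain ⟨P', hP'⟩ : ∃ P' : ℕ, P' = ⌊(s i + h / 2) * J⌋₊ := ⟨_, rfl⟩
  obtain ⟨E, hE⟩ : ∃ E : ℝ, E = max (u - s i) 0 + 4 * η := ⟨_, rfl⟩
  have hE1 : u - s i + 4 * η ≤ E := by rw [hE]; linarith [le_max_left (u - s i) 0]
  have hE0 : 4 * η ≤ E := by rw [hE]; linarith [le_max_right (u - s i) 0]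
  have hE2 : s i + h / 2 + E ≤ 1 := by
    rw [hE]
    rcases le_total (u - s i) 0 with h5 | h5
    · rw [max_eq_right h5]
      linarith
    · rw [max_eq_left h5]
      linarith
  obtain ⟨e', he'⟩ : ∃ e' : ℕ, e' = ⌊E * J⌋₊ := ⟨_, rfl⟩
  have he'1 : E * J < e' + 1 := by rw [he']; exact Nat.lt_floor_add_one _
  have he'2 : (e' : ℝ) ≤ E * J := by
    rw [he']
    exact Nat.floor_le (mul_nonneg (by linarith) hJ0)
  have hP'1 : (P' : ℝ) ≤ (s i + h / 2) * J := by rw [hP']; exact Nat.floor_le (by positivity)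
  have hP'2 : (s i + h / 2) * J < P' + 1 := by rw [hP']; exact Nat.lt_floor_add_one _
  have hηJ : (8 : ℝ) ≤ η * J := by
    have h3 : 0 ≤ ((i : ℝ) + 1) * (C₁ / Real.log 2 + 1) := by positivity
    have h4 : (0 : ℝ) ≤ c₁ := Nat.cast_nonneg _
    linarith
  have hEJ : (u - s i + 4 * η) * J ≤ E * J := mul_le_mul_of_nonneg_right hE1 hJ0
  have hEJ0 : 4 * η * J ≤ E * J := mul_le_mul_of_nonneg_right hE0 hJ0
  obtain ⟨B', hB', hPB', hG'⟩ := hgr' P₁ P' e' ⌊η * J⌋₊ ⌊(rd i + η) * J⌋₊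
    ⌊(s i - η) * J⌋₊ V V₂ z z' G z₂ z₂' G₂
    (hG.mono (Finset.Subset.refl _) (by rw [hK']; exact le_max_left _ _) le_rfl)
    (hG₂.mono (Finset.Subset.refl _) (show K₂ ≤ K' by rw [hK']; exact le_max_right _ _) le_rfl
        le_rfl le_rfl)
    (Nat.floor_le_floor (mul_le_mul_of_nonneg_right (by linarith) hJ0))
    (by
      have e2 : (s i + h / 2) * J + η * J ≤ (s i + h - η) * J := by
        rw [← add_mul]
        exact mul_le_mul_of_nonneg_right (by linarith) hJ0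
      linarith)
    (by
      have e3 : (u - s i + 4 * η) * J + (s i + h - η) * J = u * J + η * J + (h * J + 2 * (η * J)) := by
        ring
      have e4 : 0 ≤ h * J := by positivity
      linarith)
    (by
      have e1 := Nat.lt_floor_add_one ((s i - η) * (J : ℝ))
      have e3 : (u - s i + 4 * η) * J + (s i - η) * J = u * J + η * J + 2 * (η * J) := by
        ring
      linarith)
    (by
      have e1 := Nat.floor_le (show 0 ≤ η * (J : ℝ) by positivity)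
      linarith)
  -- the contradiction
  have hPB'' : 0 < Pool.K2S.Pe F.p B' := by
    have h1 : 0 < Pool.K2S.Pe F.p B := by
      have h2 : (0 : ℝ) < c₁ := by exact_mod_cast (lt_of_lt_of_le one_pos hc₁)
      by_contra hcon
      push Not at hcon
      have h3 : (c₁ : ℝ) * Pool.K2S.Pe F.p B ≤ 0 := mul_nonpos_of_nonneg_of_nonpos h2.le hcon
      linarith
    linarith
  have k1 := hful' B' hB' (by linarith) V z z' (fun ω hω => hG'.cls ω hω) i (Nat.zero_le _) hi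
  have k2 := Pool.SWR.one_crd hPB'' hG' (by
    have h1 : ((P' + e' : ℕ) : ℝ) ≤ J := by
      push_cast
      have h2 : (s i + h / 2) * J + E * J ≤ 1 * J := by
        rw [← add_mul]
        exact mul_le_mul_of_nonneg_right hE2 hJ0
      linarith
    exact_mod_cast h1) (Pool.LBT.fl_le' hu1.le J)
  have hq := Pool.K2S.isLaw_cond F.isLaw hPB''
  have k3 : Pool.Agent.H49.Ent.CH (Pool.Agent.H49.Ent.cond F.p B' True) (fun ω => F.X J ω (c i))
      (fun ω => ((fun l' : Fin i => F.X J ω (c l')), z' (Pool.KSAT.slam F ⌊w * J⌋₊ ω), F.W ω)) ≤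
      Pool.Agent.H49.Ent.CH (Pool.Agent.H49.Ent.cond F.p B' True) (fun ω => F.X J ω (c i))
      (fun ω => (Pool.UNJ.ceI ((range i).image c) (fun _ => J) (F.x ω), z' (Pool.KSAT.slam F ⌊w * J⌋₊ ω), F.W ω)) := by
    refine Pool.Agent.H32.Dense.CH_mono_cond hq.nonneg fun ω ω' _ _ hh => ?_
    simp only [Prod.mk.injEq] at hh ⊢
    refine ⟨_root_.funext fun l => ?_, hh.2⟩
    unfold Pool.UNJ.ceI
    by_cases hl : l ∈ (range i).image c
    · rw [if_pos hl, if_pos hl]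
      obtain ⟨j, hj, rfl⟩ := mem_image.1 hl
      exact congrFun hh.1 ⟨j, mem_range.1 hj⟩
    · rw [if_neg hl, if_neg hl]
  have k4 := (k1.trans k3).trans k2
  rw [← hcm] at k4
  have k5 : ((J : ℝ) - P') * Real.log 2 ≤ ((1 - s i - h / 2) * J + 1) * Real.log 2 :=
    mul_le_mul_of_nonneg_right (by linarith) hl2.le
  have k6 : ((1 - s i) - h / 4) * Real.log 2 * J = ((1 - s i - h / 2) * J + 1) * Real.log 2 +
      h / 4 * Real.log 2 * J - Real.log 2 := by ring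
  linarith

/-- **The thresholds of the chains are at most the numbers of a full list with closed labels**, if
the numbers are less than `1 - θ w`; they need not be in increasing order. -/
theorem thr_le_chn {θ : ℝ} (hθ : 0 < θ) {S : Pool.PB.PCl m} (hS : S.Ne) {C₀ : ℝ} (hC₀ : 0 ≤ C₀)
    (htm : Pool.GEN.TmC S C₀)
    (hposA : ∀ (τ : ℝ) (J : ℕ) (F : Pool.KA.Fam m J) (A : F.Ω → Prop), S.St τ J F A → 0 < Pool.K2S.Pe F.p A)
    {P : List (Fin m) × Fin m → ℝ → ℝ → ℝ} (hP : Pool.LBT.ThrOf (Pool.W.CHT.chsys m θ) S P)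
    {c : ℕ → Fin m} {r : ℕ} {w u₀ u₁ : ℝ} {s rd : ℕ → ℝ} (hC : Pool.LA91.Chn S c 0 r w u₀ u₁ s rd)
    (hw0 : 0 < w) {j : ℕ} (hj : j < r) (hs0 : ∀ l ≤ j, w ≤ s l) (hlt : ∀ l ≤ j, s l < 1 - θ * w) :
    Pool.CHT.bet P c j w w ≤ s j := by
  classical
  have hw1 : w < 1 := hC.wu1.trans_lt hC.u1
  by_contra hcon
  push Not at hcon
  obtain ⟨p, hp⟩ : ∃ p, p = P ((List.range j).map c, c j) w w := ⟨_, rfl⟩
  have hbp : Pool.CHT.bet P c j w w = p := by rw [hp]; rfl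
  rw [hbp] at hcon
  obtain ⟨h0, hh00, hh01⟩ := Pool.CHT.fin_pos (j + 1) (f := fun l => (1 - θ * w - s l) / 8)
    fun l hl => by
      have := hlt l (by omega)
      linarith
  obtain ⟨h, hh⟩ : ∃ h, h = min ((p - s j) / 8) h0 := ⟨_, rfl⟩
  have hh0 : 0 < h := by rw [hh]; exact lt_min (by linarith) hh00
  have hh1 : 8 * h ≤ p - s j := by
    have : h ≤ (p - s j) / 8 := by rw [hh]; exact min_le_left _ _
    linarith
  have hh2 : ∀ l ≤ j, 8 * h ≤ 1 - θ * w - s l := fun l hl => by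
    have h1 : h ≤ h0 := by rw [hh]; exact min_le_right _ _
    have h2 := hh01 l (by omega)
    linarith
  have hθw : 0 < θ * w := mul_pos hθ hw0
  obtain ⟨K, hK⟩ := hP.att ((List.range j).map c, c j) w w h hw0 le_rfl hw1.le hh0 (by
    rw [← hp]
    linarith [hs0 j le_rfl])
  rw [← hp] at hK
  have hno := Pool.S6C.Bas.all (S := S) (j + 1) (fun i hi => Pool.W.SWR.chn_abs' hC₀ htm hposA hC
    (show i < r by omega) K hh0 (by
      have := hh2 i (by omega)
      linarith))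
  obtain ⟨J₁, hJ₁⟩ := exists_nat_ge (1 / h)
  refine Pool.PB.Clp.not_false hS (Pool.S6C.Bas.clp ((hK.and hno).mono J₁ ?_))
  rintro J hJ F A ⟨hT, hno⟩
  have hJ0 : (0 : ℝ) ≤ J := Nat.cast_nonneg J
  have hJ1 : 1 ≤ h * J := by
    have h1 : (J₁ : ℝ) ≤ J := by exact_mod_cast hJ
    have h2 := hJ₁.trans h1
    rw [div_le_iff₀ hh0] at h2
    linarith
  obtain ⟨a₀, w₀, g, h1, h2, h3, h4, h5, hch⟩ : Pool.W.CHT.Cht θ ((List.range j).map c) (c j) K ⌊w * J⌋₊
    ⌊w * J⌋₊ ⌊(p - h) * J⌋₊ J F A := hT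
  have hlen : ((List.range j).map c).length = j := by simp
  rw [hlen] at h4 h5 hch
  obtain ⟨e, he⟩ : ∃ e, e = Pool.CHT.lipE θ K ⌊w * J⌋₊ J := ⟨_, rfl⟩
  rw [← he] at hch
  have hch' : Pool.W.GEN.ChN F c (j + 1) (fun _ => K) a₀ w₀ e g A := by
    refine Pool.W.CHT.ChN.congr hch (fun l hl => ?_) fun _ _ => rfl
    rcases Nat.lt_or_ge l j with h6 | h6
    · simp [h6]
    · have : l = j := by omega
      subst this
      simp
  have hwJf : ((⌊w * J⌋₊ : ℕ) : ℝ) ≤ w * J := Nat.floor_le (by positivity)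
  have heJ : (e : ℝ) ≤ θ * w * J := by
    have e1 : (e : ℝ) ≤ |θ| * ⌊w * J⌋₊ := by
      rw [he]
      unfold Pool.CHT.lipE
      rcases le_or_gt 0 (|θ| * (⌊w * J⌋₊ : ℝ) - (J : ℝ) / (K + 1)) with h6 | h6
      · have h7 := Nat.floor_le h6
        have : 0 ≤ (J : ℝ) / (K + 1) := by positivity
        linarith
      · rw [Nat.floor_of_nonpos h6.le, Nat.cast_zero]
        positivity
    rw [abs_of_pos hθ] at e1
    have e2 := mul_le_mul_of_nonneg_left hwJf hθ.le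
    linarith
  obtain ⟨v, hv⟩ : ∃ v, v = ⌊w * J⌋₊ - a₀ := ⟨_, rfl⟩
  obtain ⟨T, hT⟩ : ∃ T : ℕ → ℕ, T = fun l => ⌊(s l + 2 * h) * J⌋₊ := ⟨_, rfl⟩
  have hTf : ∀ l ≤ j, (T l : ℝ) ≤ (s l + 2 * h) * J := fun l hl => by
    rw [hT]
    refine Nat.floor_le (mul_nonneg ?_ hJ0)
    linarith [hs0 l hl]
  have hTl : ∀ l, (s l + h) * J ≤ T l := fun l => by
    have e1 := Nat.lt_floor_add_one ((s l + 2 * h) * (J : ℝ))
    have e2 : T l = ⌊(s l + 2 * h) * J⌋₊ := by rw [hT]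
    rw [e2]
    have e3 : (s l + 2 * h) * (J : ℝ) = (s l + h) * J + h * J := by ring
    linarith
  have hTv : ∀ l ≤ j, v ≤ T l := fun l hl => by
    have e1 : ⌊w * J⌋₊ ≤ T l := by
      rw [hT]
      refine Nat.floor_le_floor (mul_le_mul_of_nonneg_right ?_ hJ0)
      linarith [hs0 l hl]
    omega
  have hexi : ∃ i, T i ≤ g i + v := by
    refine ⟨j, ?_⟩
    have e1 : T j ≤ ⌊(p - h) * J⌋₊ := by
      rw [hT]
      exact Nat.floor_le_floor (mul_le_mul_of_nonneg_right (by linarith) hJ0)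
    omega
  obtain ⟨i, hi⟩ : ∃ i, i = Nat.find hexi := ⟨_, rfl⟩
  have hi1 : T i ≤ g i + v := by
    rw [hi]
    exact Nat.find_spec hexi
  have hi2 : ∀ l < i, g l + v < T l := by
    intro l hl
    have := Nat.find_min hexi (by rw [hi] at hl; exact hl)
    omega
  have hij : i ≤ j := by
    rw [hi]
    refine Nat.find_min' hexi ?_
    have e1 : T j ≤ ⌊(p - h) * J⌋₊ := by
      rw [hT]
      exact Nat.floor_le_floor (mul_le_mul_of_nonneg_right (by linarith) hJ0)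
    omega
  obtain ⟨g', hg'⟩ : ∃ g' : ℕ → ℕ, g' = fun l => if l = i then T i - v else g l := ⟨_, rfl⟩
  have hgi : g' i = T i - v := by rw [hg']; exact if_pos rfl
  have hgl : ∀ l, l ≠ i → g' l = g l := fun l hl => by rw [hg']; exact if_neg hl
  have hch2 : Pool.W.GEN.ChN F c (i + 1) (fun _ => K) a₀ w₀ e g' A := by
    obtain ⟨G, H, hG⟩ := hch'
    have h6 : Pool.W.GEN.ChN F c (i + 1) (fun _ => K) a₀ w₀ e g A :=
      ⟨G, H, hG.mono (by omega) (fun _ => le_rfl) le_rfl le_rfl⟩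
    refine h6.last (fun l hl => hgl l (by omega)) fun l hl => ?_
    have : l = i := by omega
    subst this
    rw [hgi]
    have := hTv l hij
    omega
  refine hno i (by omega) a₀ w₀ e g' h1 h2 (fun l hl => ?_) ?_ hch2
  · rw [← hv]
    have e1 : g' l + v ≤ T l := by
      rcases Nat.eq_or_lt_of_le hl with h6 | h6
      · rw [h6, hgi]
        have := hTv i hij
        omega
      · rw [hgl l (by omega)]
        exact (hi2 l h6).le
    have e2 : (g' l : ℝ) + v ≤ (s l + 2 * h) * J :=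
      le_trans (by exact_mod_cast e1) (hTf l (by omega))
    have e4 : (s l + 2 * h) * (J : ℝ) ≤ (1 - θ * w - 6 * h) * J := by
      have := hh2 l (by omega)
      exact mul_le_mul_of_nonneg_right (by linarith) hJ0
    nlinarith
  · rw [← hv]
    have e1 : T i ≤ g' i + v := by
      rw [hgi]
      have := hTv i hij
      omega
    have e2 : (T i : ℝ) ≤ g' i + v := by exact_mod_cast e1
    exact (hTl i).trans e2


end Pool.W.SWR
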